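import Pool.Agent.LinfC.Char

namespace Pool.Agent.Results.MP_85d466_an.BanachLattices

open Pool.Agent.LinfX

/-- Let `X` be a Banach space over `𝕜 = ℝ` or `ℂ` which is isomorphic, as a real Banach space, to a
real Banach lattice `L` (this holds for every real or complex Banach lattice `X`), and suppose that
`L^∞([0,1], c_0)` is not isomorphic to a complemented subspace of `X` (this holds if `X` does not
contain `ℓ^∞`, and if `X` has no complemented subspace isomorphic to `c_0`). Then `ℓ^∞(X)` and
`L^∞([0,1], X)` are isomorphic if and only if `X` does not contain `c_0`. -/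
theorem result (𝕜 : Type*) [RCLike 𝕜] (X : Type*) [NormedAddCommGroup X] [NormedSpace 𝕜 X]
    [CompleteSpace X] (L : Type*) [NormedAddCommGroup L] [Lattice L] [HasSolidNorm L]
    [IsOrderedAddMonoid L] [NormedSpace ℝ L] [CompleteSpace L] (e : X ≃+ L)
    (he : Continuous e) (he' : Continuous e.symm)
    (hX : ¬ IsComplementedIn 𝕜 (UnitT (ZeroAtInftyContinuousMap ℕ 𝕜)) X) :
    SpacesIso 𝕜 X ↔ ¬ ContainsC0 𝕜 X :=
  Pool.Agent.LinfC.lattice_iff 𝕜 X L e he he' hX

end Pool.Agent.Results.MP_85d466_an.BanachLattices
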