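import Pool.Agent.LinfC.Char

namespace Pool.Agent.Results.MP_85d466_an.Characterization

open Pool.Agent.LinfX

/-- Let `X` be a Banach space over `𝕜 = ℝ` or `ℂ`.

1. If there is an `X`-valued Banach limit and the representable operators are complemented in the
   space of all bounded linear operators `L^1([0,1]) → X`, then `ℓ^∞(X)` and `L^∞([0,1], X)` are
   isomorphic.
2. If `L^∞([0,1], c_0)` is not isomorphic to a complemented subspace of `X` (for example, if `X`
   does not contain `ℓ^∞`, or has no complemented subspace isomorphic to `c_0`), then these two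
   conditions are also necessary.
3. If `X` has the Radon-Nikodym property, then `ℓ^∞(X)` and `L^∞([0,1], X)` are isomorphic if and
   only if there is an `X`-valued Banach limit.
4. If a sequence of finite rank operators converges pointwise to the identity of `X`, then there is
   an `X`-valued Banach limit if and only if `X` is complemented in its bidual. -/
theorem result (𝕜 : Type*) [RCLike 𝕜] (X : Type*) [NormedAddCommGroup X] [NormedSpace 𝕜 X]
    [CompleteSpace X] :
    (HasBanachLimit 𝕜 X ∧ RepComplemented 𝕜 X → SpacesIso 𝕜 X) ∧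
    (¬ IsComplementedIn 𝕜 (UnitT (ZeroAtInftyContinuousMap ℕ 𝕜)) X →
      (SpacesIso 𝕜 X ↔ HasBanachLimit 𝕜 X ∧ RepComplemented 𝕜 X)) ∧
    (HasRNP 𝕜 X → (SpacesIso 𝕜 X ↔ HasBanachLimit 𝕜 X)) ∧
    (HasSeqBAP 𝕜 X → (HasBanachLimit 𝕜 X ↔ ComplementedInBidual 𝕜 X)) := by
  have hsuff : HasBanachLimit 𝕜 X ∧ RepComplemented 𝕜 X → SpacesIso 𝕜 X :=
    fun h => (AEProp.of_banachLimit h.1 h.2).iso
  have hnec : ¬ ContainsC0 𝕜 X → SpacesIso 𝕜 X →
      HasBanachLimit 𝕜 X ∧ RepComplemented 𝕜 X := by
    intro hX h
    have h : Iso 𝕜 (linfSeq X) (LinfUnit X) := h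
    have hAE := AEProp.of_complemented hX h.symm.complemented
    exact ⟨hAE.hasBanachLimit, hAE.repComplemented⟩
  refine ⟨hsuff, fun hX => Pool.Agent.LinfC.iso_iff hX, fun hX => ⟨fun h => ?_, fun h => ?_⟩,
    fun hX => ⟨fun h => h.complementedInBidual hX, fun h => h.hasBanachLimit⟩⟩
  · exact (hnec hX.not_containsC0 h).1
  · exact hsuff ⟨h, hX.repComplemented⟩

end Pool.Agent.Results.MP_85d466_an.Characterization
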