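import Pool.Agent.LinfX.Fixed

namespace Pool.Agent.Results.MP_85d466_an.FixedPoint

open Pool.Agent.LinfX

universe u

/-- Every Banach space `Y` is isomorphic to a complemented subspace of a Banach space `X` for which
`X`, `ℓ^∞(X)` and `L^∞([0,1], X)` are isomorphic. -/
theorem result (𝕜 : Type*) [RCLike 𝕜] (Y : Type u) [NormedAddCommGroup Y] [NormedSpace 𝕜 Y]
    [CompleteSpace Y] : ∃ (X : Type u) (_ : NormedAddCommGroup X) (_ : NormedSpace 𝕜 X)
    (_ : CompleteSpace X), IsComplementedIn 𝕜 Y X ∧ Iso 𝕜 X (LinfUnit X) ∧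
      Iso 𝕜 (linfSeq X) (LinfUnit X) :=
  exists_fixed 𝕜 Y

end Pool.Agent.Results.MP_85d466_an.FixedPoint
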