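import Pool.Agent.LinfC.Main

namespace Pool.Agent.Results.MP_85d466_an.SumTheorem

open Pool.Agent.LinfX

/-- Let `Y` be a Banach space which contains a copy of `c_0`, and let `E 0, E 1, ...` be arbitrary
Banach spaces. If `L^∞([0,1], Y)` is isomorphic to a complemented subspace of the `ℓ^∞`-sum of the
spaces `E n`, then `L^∞([0,1], c_0)` is isomorphic to a complemented subspace of one of the spaces
`E n`. For `Y = E n = X`: if `X` contains `c_0` and `ℓ^∞(X)`, `L^∞([0,1], X)` are isomorphic, then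
`L^∞([0,1], c_0)` is isomorphic to a complemented subspace of `X`. (`ZeroAtInftyContinuousMap ℕ 𝕜`
is `c_0`.) -/
theorem result (𝕜 : Type*) [RCLike 𝕜] (Y : Type*) [NormedAddCommGroup Y] [NormedSpace 𝕜 Y]
    [CompleteSpace Y] (E : ℕ → Type*) [∀ n, NormedAddCommGroup (E n)] [∀ n, NormedSpace 𝕜 (E n)]
    [∀ n, CompleteSpace (E n)] (hY : ContainsC0 𝕜 Y)
    (h : IsComplementedIn 𝕜 (LinfUnit Y) (linfSum E)) :
    ∃ n, IsComplementedIn 𝕜 (LinfUnit (ZeroAtInftyContinuousMap ℕ 𝕜)) (E n) := by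
  obtain ⟨T, S, hST⟩ := h
  exact Pool.Agent.LinfC.theorem_A hY T S hST

end Pool.Agent.Results.MP_85d466_an.SumTheorem
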